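import Pool.Agent.SokDia.Final

/-!
# Sokolov compact spaces with countable point-finite cellularity of `C_p(X)`: independence

Definitions: `Pool/Agent/Sokolov/Defs.lean` (Sokolov spaces, point-finite cellularity of `C_p(X)`,
exactly as in the frozen statement `S14295`), `Pool/Agent/CpFU/Defs.lean` (`MA` for `ℵ₁` dense
sets), `Pool/Agent/SokDia/Defs.lean` (Jensen's diamond).
-/

universe u

namespace Pool.Agent.Results.MP_fe3374_gt.Independence

open Pool.Agent

theorem result :
    (CpFU.MAω₁.{u} → ∀ (X : Type u) [TopologicalSpace X] [CompactSpace X] [T2Space X],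
      Sokolov.IsSokolov X → Sokolov.PointFiniteCellularityCp X →
        TopologicalSpace.MetrizableSpace X) ∧
    (SokDia.Diamond → ∃ (X : Type) (_ : TopologicalSpace X), CompactSpace X ∧ T2Space X ∧
      Sokolov.IsSokolov X ∧ Sokolov.PointFiniteCellularityCp X ∧
        ¬ TopologicalSpace.MetrizableSpace X) :=
  ⟨fun hMA X _ _ _ hX hp => Sokolov.metrizable_of_ma hMA X hX hp, SokDia.counterexample⟩

end Pool.Agent.Results.MP_fe3374_gt.Independence
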